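import Pool.Agent.H51.CST.Targets

set_option autoImplicit false

open Polynomial

namespace Pool.Agent.H79.CST

open Pool.Agent.H51.CST

theorem pf_RED (hABS : T_ABS) : T_RED := by
  intro k _ d e D n v hd he hv
  let N : Submodule k (AdjoinRoot D.mu) :=
    { carrier := {v | ∀ j, (crd D.monic v j).natDegree ≤ n}
      zero_mem' := by
        intro j
        simp [crd]
      add_mem' := by
        intro a b ha hb j
        have h : crd D.monic (a + b) j = crd D.monic a j + crd D.monic b j := by
          simp [crd]
        rw [h]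
        exact (natDegree_add_le _ _).trans (max_le (ha j) (hb j))
      smul_mem' := by
        intro c a ha j
        have h : crd D.monic (c • a) j = c • crd D.monic a j := by
          unfold crd
          rw [LinearMap.map_smul_of_tower, coeff_smul]
        rw [h]
        exact (natDegree_smul_le _ _).trans (ha j) }
  have hN : ∀ w, w ∈ N ↔ ∀ j, (crd D.monic w j).natDegree ≤ n := fun w => Iff.rfl
  suffices h : F1 D.mu e n ≤ N from h hv
  unfold F1 Fil
  rw [Submodule.span_le]
  rintro _ ⟨i, j, l, hij, rfl⟩
  have h1 := hABS k k[X] (fun m => degreeLE k (m : WithBot ℕ)) e d D.mu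
    (by
      intro a b hab
      exact degreeLE_mono (by exact_mod_cast hab))
    (by
      intro a b u w hu hw
      rw [mem_degreeLE] at hu hw ⊢
      refine (degree_mul_le _ _).trans ?_
      rw [Nat.cast_add]
      exact add_le_add hu hw)
    D.monic D.deg
    (by
      intro a ha
      rw [mem_degreeLE]
      refine natDegree_le_iff_degree_le.mp ((D.bd a).trans ?_)
      have : 1 ≤ d - a := by omega
      exact Nat.le_mul_of_pos_right e this)
    j i n (X ^ i) (by
      have : 0 ≤ e * l := Nat.zero_le _
      omega) (by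
      rw [mem_degreeLE]
      exact degree_X_pow_le _)
  have h2 : xR D.mu ^ i * yR D.mu ^ j * 1 ^ l
      = AdjoinRoot.of D.mu (X ^ i) * AdjoinRoot.root D.mu ^ j := by
    unfold xR yR
    rw [one_pow, mul_one, map_pow]
  rw [SetLike.mem_coe, h2]
  refine Submodule.span_le.mpr ?_ h1
  rintro _ ⟨l', m', u', hl', hm', hu', rfl⟩
  rw [SetLike.mem_coe, hN]
  intro a
  have h3 : AdjoinRoot.of D.mu u' * AdjoinRoot.root D.mu ^ l'
      = AdjoinRoot.mk D.mu (C u' * X ^ l') := by
    rw [map_mul, map_pow, AdjoinRoot.mk_C, AdjoinRoot.mk_X]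
  have h4 : crd D.monic (AdjoinRoot.of D.mu u' * AdjoinRoot.root D.mu ^ l') a
      = (C u' * X ^ l' : k[X][X]).coeff a := by
    unfold crd
    rw [h3, AdjoinRoot.modByMonicHom_mk]
    congr 1
    rw [modByMonic_eq_self_iff D.monic]
    refine lt_of_le_of_lt (degree_C_mul_X_pow_le _ _) ?_
    rw [degree_eq_natDegree D.monic.ne_zero, D.deg]
    exact_mod_cast hl'
  rw [h4, coeff_C_mul_X_pow]
  split_ifs with h5
  · rw [mem_degreeLE] at hu'
    have := natDegree_le_iff_degree_le.mpr hu'
    have h6 : 0 ≤ e * l' := Nat.zero_le _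
    omega
  · simp

end Pool.Agent.H79.CST
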